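import Pool.Agent.H28.MCL.Targets
import Pool.Agent.H24.T2.LD

/-!
Module LDB: the properties of the logarithmic density on long windows.
-/

set_option autoImplicit false

open Finset Filter Topology

namespace Pool.Agent.H14.MCL

open Pool.Agent.H24.MR (lam FinAddInv StatementMR)
open Pool.Agent.H24.T2 (lsum lsum_eq_ite lsum_nonneg lsum_univ lsum_le lsum_union lsum_shift
  lsum_dvd lsum_div_close)
open Pool.Agent.H28.MCL
open Pool.Agent.H59.MR

open Classical in
/-- logarithmic sum of `A` over a window -/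
noncomputable def wsum (A : Set ℕ) (x y : ℕ) : ℝ :=
  ∑ n ∈ (Finset.Icc x y).filter (fun n => n ∈ A), (1 : ℝ) / n

theorem wsum_nonneg (A : Set ℕ) (x y : ℕ) : 0 ≤ wsum A x y :=
  Finset.sum_nonneg fun m _ => by positivity

theorem sum_split (f : ℕ → ℝ) {x y : ℕ} (hx : 0 < x) (hxy : x ≤ y) :
    ∑ m ∈ Finset.Icc 1 y, f m = ∑ m ∈ Finset.Icc 1 (x - 1), f m + ∑ m ∈ Finset.Icc x y, f m := by
  have e1 : Finset.Icc 1 y = Finset.Icc 1 (x - 1) ∪ Finset.Icc x y := by
    ext m
    simp only [Finset.mem_union, Finset.mem_Icc]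
    omega
  rw [e1, Finset.sum_union]
  rw [Finset.disjoint_left]
  intro m hm hm'
  rw [Finset.mem_Icc] at hm hm'
  omega

theorem wsum_eq (A : Set ℕ) {x y : ℕ} (hx : 0 < x) (hxy : x ≤ y) :
    wsum A x y = lsum A y - lsum A (x - 1) := by
  classical
  have h := sum_split (fun m => if m ∈ A then (1 : ℝ) / m else 0) hx hxy
  rw [lsum_eq_ite, lsum_eq_ite, h, add_sub_cancel_left]
  unfold wsum
  rw [Finset.sum_filter]

theorem wsum_mono {A B : Set ℕ} (h : A ⊆ B) (x y : ℕ) : wsum A x y ≤ wsum B x y := by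
  classical
  unfold wsum
  refine Finset.sum_le_sum_of_subset_of_nonneg ?_ fun i _ _ => by positivity
  intro m hm
  rw [Finset.mem_filter] at hm ⊢
  exact ⟨hm.1, h hm.2⟩

theorem wsum_univ_close {x y : ℕ} (hx : 0 < x) (hxy : x ≤ y) :
    |wsum Set.univ x y - Real.log ((y : ℝ) / x)| ≤ 1 := by
  have hx0 : (0 : ℝ) < x := by exact_mod_cast hx
  have hy0 : (0 : ℝ) < y := by exact_mod_cast lt_of_lt_of_le hx hxy
  rw [wsum_eq _ hx hxy, Real.log_div hy0.ne' hx0.ne', lsum_univ, lsum_univ]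
  have h1 := harmonic_le_one_add_log y
  have h2 := log_add_one_le_harmonic y
  have h3 := harmonic_le_one_add_log (x - 1)
  have h4 := log_add_one_le_harmonic (x - 1)
  have h5 : ((x - 1 : ℕ) : ℝ) + 1 = x := by
    rw [Nat.cast_sub hx]
    push_cast
    ring
  have h6 : Real.log (((x - 1 : ℕ) : ℝ) + 1) = Real.log x := by rw [h5]
  have h6' : Real.log (((x - 1 + 1 : ℕ) : ℝ)) = Real.log x := by
    push_cast
    exact h6
  have h7 : Real.log (y : ℝ) ≤ Real.log (((y + 1 : ℕ) : ℝ)) := by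
    apply Real.log_le_log hy0
    push_cast
    linarith
  have h8 : Real.log ((x - 1 : ℕ) : ℝ) ≤ Real.log x := by
    rcases Nat.eq_zero_or_pos (x - 1) with h | h
    · rw [h, Nat.cast_zero, Real.log_zero]
      apply Real.log_nonneg
      exact_mod_cast hx
    · apply Real.log_le_log (by exact_mod_cast h)
      exact_mod_cast Nat.sub_le x 1
  rw [abs_le]
  constructor <;> linarith

theorem wsum_le (A : Set ℕ) {x y : ℕ} (hx : 0 < x) (hxy : x ≤ y) :
    wsum A x y ≤ 1 + Real.log ((y : ℝ) / x) := by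
  have h1 := wsum_mono (Set.subset_univ A) x y
  have h2 := (abs_le.1 (wsum_univ_close hx hxy)).2
  linarith

variable {U : Ultrafilter ℕ} {x y : ℕ → ℕ}

theorem ev_le (h : Aw U x y) : ∀ᶠ j in (U : Filter ℕ), x j ≤ y j := by
  filter_upwards [h.2.eventually (eventually_gt_atTop 0)] with j hj
  by_contra hlt
  push Not at hlt
  have hx0 : (0 : ℝ) < x j := by exact_mod_cast h.1 j
  have h1 : (y j : ℝ) / x j ≤ 1 := by
    rw [div_le_one hx0]
    exact_mod_cast hlt.le
  have h2 := Real.log_nonpos (by positivity) h1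
  linarith

theorem const_div (h : Aw U x y) (C : ℝ) :
    Tendsto (fun j => C / Real.log ((y j : ℝ) / x j)) (U : Filter ℕ) (𝓝 0) :=
  h.2.const_div_atTop C

theorem tendsto_ldB (h : Aw U x y) (A : Set ℕ) :
    Tendsto (fun j => wsum A (x j) (y j) / Real.log ((y j : ℝ) / x j)) (U : Filter ℕ)
      (𝓝 (ldB U x y A)) := by
  have hc : IsCompact (Set.Icc (0 : ℝ) 2) := isCompact_Icc
  have hle : ((U.map (fun j => wsum A (x j) (y j) / Real.log ((y j : ℝ) / x j)) :
      Ultrafilter ℝ) : Filter ℝ) ≤ 𝓟 (Set.Icc (0 : ℝ) 2) := by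
    rw [le_principal_iff, Ultrafilter.mem_coe, Ultrafilter.mem_map]
    filter_upwards [h.2.eventually (eventually_ge_atTop 1), ev_le h] with j hj hxy
    constructor
    · exact div_nonneg (wsum_nonneg _ _ _) (by linarith)
    · rw [div_le_iff₀ (by linarith)]
      have := wsum_le A (h.1 j) hxy
      linarith
  obtain ⟨a, -, ha⟩ := hc.ultrafilter_le_nhds _ hle
  have ht : Tendsto (fun j => wsum A (x j) (y j) / Real.log ((y j : ℝ) / x j)) (U : Filter ℕ)
      (𝓝 a) := ha
  have h1 : ldB U x y A = a := by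
    unfold ldB
    exact ht.limUnder_eq
  rw [h1]
  exact ht

theorem ldB_eq_of_tendsto (h : Aw U x y) {A : Set ℕ} {a : ℝ}
    (h1 : Tendsto (fun j => wsum A (x j) (y j) / Real.log ((y j : ℝ) / x j)) (U : Filter ℕ)
      (𝓝 a)) : ldB U x y A = a :=
  tendsto_nhds_unique (tendsto_ldB h A) h1

theorem ldB_eq_of_close (h : Aw U x y) {A : Set ℕ} {a C : ℝ} (g : ℕ → ℕ → ℝ)
    (hg : ∀ m n, 0 < m → m ≤ n → |wsum A m n - g m n| ≤ C)
    (h1 : Tendsto (fun j => g (x j) (y j) / Real.log ((y j : ℝ) / x j)) (U : Filter ℕ) (𝓝 a)) :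
    ldB U x y A = a := by
  apply ldB_eq_of_tendsto h
  have hd : Tendsto (fun j => wsum A (x j) (y j) / Real.log ((y j : ℝ) / x j) -
      g (x j) (y j) / Real.log ((y j : ℝ) / x j)) (U : Filter ℕ) (𝓝 0) := by
    refine squeeze_zero_norm' ?_ (const_div h C)
    filter_upwards [h.2.eventually (eventually_gt_atTop 0), ev_le h] with j hj hxy
    rw [Real.norm_eq_abs, ← sub_div, abs_div, abs_of_pos hj]
    exact div_le_div_of_nonneg_right (hg _ _ (h.1 j) hxy) hj.le
  have := hd.add h1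
  simpa using this

theorem ldB_le (h : Aw U x y) {A : Set ℕ} {a C : ℝ}
    (h1 : ∀ᶠ j in (U : Filter ℕ),
      wsum A (x j) (y j) ≤ a * Real.log ((y j : ℝ) / x j) + C) :
    ldB U x y A ≤ a := by
  have h2 : Tendsto (fun j => a + C / Real.log ((y j : ℝ) / x j)) (U : Filter ℕ) (𝓝 a) := by
    have := (const_div h C).const_add a
    simpa using this
  refine le_of_tendsto_of_tendsto (tendsto_ldB h A) h2 ?_
  filter_upwards [h.2.eventually (eventually_gt_atTop 0), h1] with j hj hj2
  rw [div_le_iff₀ hj, add_mul, div_mul_cancel₀ _ hj.ne']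
  exact hj2

theorem le_ldB (h : Aw U x y) {A : Set ℕ} {a : ℝ}
    (h1 : ∀ᶠ j in (U : Filter ℕ), a * Real.log ((y j : ℝ) / x j) ≤ wsum A (x j) (y j)) :
    a ≤ ldB U x y A := by
  refine ge_of_tendsto (tendsto_ldB h A) ?_
  filter_upwards [h.2.eventually (eventually_gt_atTop 0), h1] with j hj hj2
  rw [le_div_iff₀ hj]
  exact hj2

theorem wsum_union {A B : Set ℕ} (hAB : Disjoint A B) {m n : ℕ} (hm : 0 < m) (hmn : m ≤ n) :
    wsum (A ∪ B) m n = wsum A m n + wsum B m n := by
  rw [wsum_eq _ hm hmn, wsum_eq _ hm hmn, wsum_eq _ hm hmn, lsum_union hAB, lsum_union hAB]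
  ring

theorem close_sub {a b c d C : ℝ} (h1 : |a - b| ≤ C) (h2 : |c - d| ≤ C) :
    |(a - c) - (b - d)| ≤ 2 * C := by
  rw [abs_le] at h1 h2 ⊢
  constructor <;> linarith

theorem finAddInv_ldB (h : Aw U x y) : FinAddInv (ldB U x y) where
  nonneg A := by
    apply le_ldB h
    exact Filter.Eventually.of_forall fun k => by rw [zero_mul]; exact wsum_nonneg _ _ _
  univ := by
    refine ldB_eq_of_close h (C := 1) (fun m n => Real.log ((n : ℝ) / m))
      (fun m n hm hmn => wsum_univ_close hm hmn) ?_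
    refine tendsto_const_nhds.congr' ?_
    filter_upwards [h.2.eventually (eventually_gt_atTop 0)] with j hj
    exact (div_self hj.ne').symm
  add A B hAB := by
    apply ldB_eq_of_tendsto h
    have h1 := (tendsto_ldB h A).add (tendsto_ldB h B)
    refine h1.congr' ?_
    filter_upwards [ev_le h] with j hj
    rw [wsum_union hAB (h.1 j) hj, add_div]
  shift A := by
    refine ldB_eq_of_close h (C := 2 * 2) (fun m n => wsum A m n) (fun m n hm hmn => ?_)
      (tendsto_ldB h A)
    rw [wsum_eq _ hm hmn, wsum_eq _ hm hmn]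
    exact close_sub (lsum_shift A n) (lsum_shift A (m - 1))

theorem ldB_dvd (h : Aw U x y) (A : Set ℕ) (p : ℕ) (hp : 0 < p) :
    ldB U x y {z | p ∣ z ∧ z / p ∈ A} = ldB U x y A / p := by
  have hpR : (0 : ℝ) < p := by exact_mod_cast hp
  have hc : ∀ n, |lsum {z | p ∣ z ∧ z / p ∈ A} n - lsum A n / p| ≤ (1 + Real.log p) / p := by
    intro n
    rw [lsum_dvd A p hp, ← sub_div, abs_div, abs_of_pos hpR]
    exact div_le_div_of_nonneg_right (lsum_div_close A p hp n) hpR.le
  apply ldB_eq_of_close h (C := 2 * ((1 + Real.log p) / p)) (fun m n => wsum A m n / p)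
  · intro m n hm hmn
    rw [wsum_eq _ hm hmn, wsum_eq _ hm hmn, sub_div]
    exact close_sub (hc n) (hc (m - 1))
  · have := (tendsto_ldB h A).div_const (p : ℝ)
    refine this.congr fun k => ?_
    rw [div_div, div_div, mul_comm]

theorem ldB_div (h : Aw U x y) (A : Set ℕ) (p : ℕ) (hp : 0 < p) :
    ldB U x y {z | z / p ∈ A} = ldB U x y A := by
  have hf := finAddInv_ldB h
  have hpR : (0 : ℝ) < p := by exact_mod_cast hp
  have h1 : {z : ℕ | z / p ∈ A} =
      {z | ∃ i ∈ Finset.range p, z ∈ {z : ℕ | z % p = i ∧ z / p ∈ A}} := by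
    ext z
    simp only [Set.mem_ofPred_eq, Finset.mem_range]
    constructor
    · intro h
      exact ⟨z % p, Nat.mod_lt _ hp, rfl, h⟩
    · rintro ⟨i, _, _, h⟩
      exact h
  rw [h1, ← fai_sum_eq hf]
  · have h2 : ∀ i ∈ Finset.range p, ldB U x y {z : ℕ | z % p = i ∧ z / p ∈ A} =
        ldB U x y A / p := by
      intro i hi
      rw [Finset.mem_range] at hi
      rw [← ldB_dvd h A p hp, ← fai_shift' hf i]
      congr 1
      ext z
      simp only [Set.mem_ofPred_eq]
      constructor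
      · rintro ⟨h3, h4⟩
        have h5 : p ∣ z := by
          have h6 : z + i ≡ 0 + i [MOD p] := by
            rw [zero_add]
            show (z + i) % p = i % p
            rw [h3, Nat.mod_eq_of_lt hi]
          exact (Nat.modEq_zero_iff_dvd).1 (Nat.ModEq.add_right_cancel' i h6)
        refine ⟨h5, ?_⟩
        obtain ⟨m, rfl⟩ := h5
        rw [Nat.mul_add_div hp, Nat.div_eq_of_lt hi, add_zero] at h4
        rw [Nat.mul_div_cancel_left _ hp]
        exact h4
      · rintro ⟨⟨m, rfl⟩, h4⟩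
        rw [Nat.mul_div_cancel_left _ hp] at h4
        rw [Nat.mul_add_div hp, Nat.div_eq_of_lt hi, add_zero, Nat.mul_add_mod,
          Nat.mod_eq_of_lt hi]
        exact ⟨rfl, h4⟩
    rw [Finset.sum_congr rfl h2, Finset.sum_const, Finset.card_range, nsmul_eq_mul]
    field_simp
  · intro i _ j _ hij
    rw [Set.disjoint_left]
    rintro z ⟨h3, _⟩ ⟨h4, _⟩
    exact hij (h3.symm.trans h4)

theorem ldb : T_LDB := by
  intro U x y h
  refine ⟨finAddInv_ldB h, ldB_dvd h, ldB_div h, fun A c hc => ?_, fun A c hc => ?_⟩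
  · refine ldB_le h (C := 0) ?_
    filter_upwards [hc] with j hj
    rw [add_zero]
    exact hj
  · refine le_ldB h ?_
    filter_upwards [hc] with j hj
    exact hj

end Pool.Agent.H14.MCL
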