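import Pool.Agent.H14.MCL.LDB

/-!
Module LDC: an upper bound for the logarithmic density on long windows from the counting function.
-/

set_option autoImplicit false

open Finset Filter Topology

namespace Pool.Agent.H14.MCL

open Pool.Agent.H24.T2 (lsum lsum_eq_ite lsum_nonneg lsum_abel sum_sqrt)
open Pool.Agent.H28.MCL

open Classical in
theorem term_bound (A : Set ℕ) (c C₁ C₂ : ℝ) (h : ∀ n : ℕ,
    (((Finset.range n).filter (fun m => m ∈ A)).card : ℝ) ≤ c * n + C₁ + C₂ * Real.sqrt n)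
    (m : ℕ) (hm : 1 ≤ m) :
    (((Finset.range (m + 1)).filter (fun m => m ∈ A)).card : ℝ) / (m * (m + 1)) ≤
      c * (1 / m) + |C₁| * (1 / m - 1 / (m + 1)) + C₂ * (1 / (m * Real.sqrt (m + 1))) := by
  have hm1 : (1 : ℝ) ≤ m := by exact_mod_cast hm
  have hm0 : (0 : ℝ) < m := by linarith
  have h3 := h (m + 1)
  have h4 : (0 : ℝ) < Real.sqrt (m + 1) := Real.sqrt_pos.2 (by positivity)
  have h5 : Real.sqrt (m + 1) ^ 2 = m + 1 := Real.sq_sqrt (by positivity)
  rw [div_le_iff₀ (by positivity)]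
  push_cast at h3
  refine h3.trans (le_of_sub_nonneg ?_)
  have e : (c * (1 / m) + |C₁| * (1 / m - 1 / (m + 1)) + C₂ * (1 / (m * Real.sqrt (m + 1))))
      * (m * (m + 1)) = c * (m + 1) + |C₁| + C₂ * Real.sqrt (m + 1) := by
    have e1 : 1 / ((m : ℝ) * Real.sqrt (m + 1)) * (m * (m + 1)) = Real.sqrt (m + 1) := by
      generalize Real.sqrt ((m : ℝ) + 1) = s at h4 h5
      rw [← h5]
      field_simp
    have e2 : ((1 : ℝ) / m - 1 / (m + 1)) * (m * (m + 1)) = 1 := by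
      field_simp
      ring
    have e3 : ((1 : ℝ) / m) * (m * (m + 1)) = m + 1 := by
      field_simp
    calc _ = c * ((1 / m) * (m * (m + 1))) + |C₁| * ((1 / m - 1 / (m + 1)) * (m * (m + 1)))
        + C₂ * (1 / (m * Real.sqrt (m + 1)) * (m * (m + 1))) := by ring
      _ = _ := by rw [e1, e2, e3]; ring
  rw [e]
  have := le_abs_self C₁
  linarith

theorem sum_tel (n : ℕ) : ∑ m ∈ Finset.Icc 1 n, ((1 : ℝ) / m - 1 / (m + 1)) = 1 - 1 / (n + 1) := by
  induction n with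
  | zero => simp
  | succ n ih =>
    rw [Finset.sum_Icc_succ_top (by omega), ih]
    push_cast
    ring

theorem window_le (f : ℕ → ℝ) (hf : ∀ m, 1 ≤ m → 0 ≤ f m) {x y : ℕ} (hx : 0 < x) (hxy : x ≤ y) :
    ∑ m ∈ Finset.Icc x y, f m ≤ ∑ m ∈ Finset.Icc 1 y, f m := by
  rw [sum_split f hx hxy]
  have : 0 ≤ ∑ m ∈ Finset.Icc 1 (x - 1), f m :=
    Finset.sum_nonneg fun m hm => hf m (Finset.mem_Icc.1 hm).1
  linarith

open Classical in
theorem wsum_of_card (A : Set ℕ) (c C₁ C₂ : ℝ) (hC₂ : 0 ≤ C₂) (h : ∀ n : ℕ,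
    (((Finset.range n).filter (fun m => m ∈ A)).card : ℝ) ≤ c * n + C₁ + C₂ * Real.sqrt n)
    {x y : ℕ} (hx : 0 < x) (hxy : x ≤ y) :
    wsum A x y ≤ c * Real.log ((y : ℝ) / x) + (|c| + 1 + |C₁| + 4 * C₂) := by
  rw [wsum_eq A hx hxy, lsum_abel A y, lsum_abel A (x - 1)]
  rw [sum_split (fun m => (((Finset.range (m + 1)).filter (fun m => m ∈ A)).card : ℝ)
      / (m * (m + 1))) hx hxy]
  have h1 : (((Finset.range (y + 1)).filter (fun m => m ∈ A)).card : ℝ) / (y + 1) ≤ 1 := by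
    rw [div_le_one (by positivity)]
    have := Finset.card_filter_le (Finset.range (y + 1)) (fun m => m ∈ A)
    rw [Finset.card_range] at this
    exact_mod_cast this
  have h0 : 0 ≤ (((Finset.range (x - 1 + 1)).filter (fun m => m ∈ A)).card : ℝ) /
      (((x - 1 : ℕ) : ℝ) + 1) := by positivity
  have h3 := Finset.sum_le_sum fun m (hm : m ∈ Finset.Icc x y) =>
    term_bound A c C₁ C₂ h m (le_trans hx (Finset.mem_Icc.1 hm).1)
  rw [Finset.sum_add_distrib, Finset.sum_add_distrib, ← Finset.mul_sum, ← Finset.mul_sum,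
    ← Finset.mul_sum] at h3
  have h4 : ∑ m ∈ Finset.Icc x y, ((1 : ℝ) / m - 1 / (m + 1)) ≤ 1 := by
    refine (window_le (fun m => (1 : ℝ) / m - 1 / (m + 1)) ?_ hx hxy).trans ?_
    · intro m hm
      have : (1 : ℝ) ≤ m := by exact_mod_cast hm
      rw [sub_nonneg]
      apply one_div_le_one_div_of_le <;> linarith
    · rw [sum_tel]
      have : (0 : ℝ) ≤ 1 / (y + 1) := by positivity
      linarith
  have h5 : ∑ m ∈ Finset.Icc x y, (1 : ℝ) / (m * Real.sqrt (m + 1)) ≤ 4 := by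
    refine (window_le (fun m => (1 : ℝ) / (m * Real.sqrt (m + 1))) ?_ hx hxy).trans ?_
    · intro m hm
      positivity
    · refine (sum_sqrt y).trans ?_
      have : (0 : ℝ) ≤ 4 / Real.sqrt (y + 1) := by positivity
      linarith
  have h6 : ∑ m ∈ Finset.Icc x y, (1 : ℝ) / m = wsum Set.univ x y := by
    unfold wsum
    simp
  have h7 := abs_le.1 (wsum_univ_close hx hxy)
  rw [h6] at h3
  have h9 : c * wsum Set.univ x y ≤ c * Real.log ((y : ℝ) / x) + |c| := by
    rcases le_or_gt 0 c with hc | hc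
    · rw [abs_of_nonneg hc]
      nlinarith [h7.2]
    · rw [abs_of_neg hc]
      nlinarith [h7.1]
  have h10 : |C₁| * ∑ m ∈ Finset.Icc x y, ((1 : ℝ) / m - 1 / (m + 1)) ≤ |C₁| := by
    have := mul_le_mul_of_nonneg_left h4 (abs_nonneg C₁)
    linarith
  have h11 : C₂ * ∑ m ∈ Finset.Icc x y, (1 : ℝ) / (m * Real.sqrt (m + 1)) ≤ 4 * C₂ := by
    have := mul_le_mul_of_nonneg_left h5 hC₂
    linarith
  linarith

theorem ldc : T_LDC := by
  intro U x y hA A c C₁ C₂ hC₂ h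
  refine ldB_le hA (C := |c| + 1 + |C₁| + 4 * C₂) ?_
  filter_upwards [ev_le hA] with j hj
  exact wsum_of_card A c C₁ C₂ hC₂ h (hA.1 j) hj

end Pool.Agent.H14.MCL
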